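import Pool.Agent.Y160.EN.Stm

/-!
# Project EN: simple zeros which are not p-th powers (job EN-S)
-/

set_option autoImplicit false

open Polynomial

namespace Pool.Agent.Y737.EN

open Pool.Agent.Y160.T3 (GoodP mF bF mF_eq bF_deg mF_natDegree gen_ex)
open Pool.Agent.Y160.EN

section
variable {F : Type} [Field F]

theorem bF_cons {r : ℕ} (c : F) (w : Fin r → F) :
    bF (Fin.cons c w : Fin (r + 1) → F) = C c + X * bF w := by
  unfold bF
  rw [Fin.sum_univ_succ, Finset.mul_sum]
  simp only [Fin.cons_zero, Fin.cons_succ, Fin.val_zero, pow_zero, mul_one, Fin.val_succ]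
  congr 1
  refine Finset.sum_congr rfl fun i _ => ?_
  ring

theorem mF_cons {D : ℕ} (a0 a1 : F) (a : Fin D → F) :
    mF (Fin.cons a0 (Fin.cons a1 a : Fin (D + 1) → F) : Fin (D + 2) → F) =
      C a0 + X * C a1 + (X ^ (D + 2) + X * (X * bF a)) := by
  rw [mF_eq, bF_cons, bF_cons]
  ring

/-- if `ε` is prime to `p` and `g ^ ε` is a `p`-th power then `g` is a `p`-th power -/
theorem root_of {p e : ℕ} (hp : p.Prime) (he : ¬ p ∣ e) {g z : F} (hg : g ≠ 0)
    (h : z ^ p = g ^ e) : ∃ y : F, y ^ p = g := by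
  have hc : IsCoprime (e : ℤ) (p : ℤ) :=
    Nat.isCoprime_iff_coprime.2 ((Nat.Prime.coprime_iff_not_dvd hp).2 he).symm
  obtain ⟨a, b, hab⟩ := hc
  refine ⟨z ^ a * g ^ b, ?_⟩
  have hz : z ≠ 0 := by
    rintro rfl
    rw [zero_pow hp.ne_zero] at h
    exact pow_ne_zero _ hg h.symm
  calc (z ^ a * g ^ b) ^ p = (z ^ p) ^ a * g ^ (b * p) := by
        rw [mul_pow, ← zpow_natCast (z ^ a), ← zpow_natCast (g ^ b), ← zpow_mul, ← zpow_mul,
          ← zpow_natCast z p, ← zpow_mul, mul_comm a]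
    _ = g ^ (a * e + b * p) := by
        rw [h, ← zpow_natCast g e, ← zpow_mul, ← zpow_add₀ hg, mul_comm a]
    _ = g := by rw [hab, zpow_one]

end

section
variable {F : Type} [Field F] [Fintype F]

open Classical in
/-- the differences -/
noncomputable def GG (F : Type) [Field F] [Fintype F] {n : ℕ} (p : ℕ) (ε : Fin n → ℕ) :
    Finset (Fin n → F) :=
  Finset.univ.filter fun δ => (∀ i, δ i ≠ 0) ∧ ∀ y : F, y ^ p ≠ ∏ i, δ i ^ ε i

theorem mem_GG {n p : ℕ} {ε : Fin n → ℕ} {δ : Fin n → F} :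
    δ ∈ GG F p ε ↔ (∀ i, δ i ≠ 0) ∧ ∀ y : F, y ^ p ≠ ∏ i, δ i ^ ε i := by
  simp [GG]

theorem card_GG {n p : ℕ} (hp : p.Prime) (hpF : p ∣ Fintype.card F - 1) (ε : Fin n → ℕ)
    (i0 : Fin n) (hi0 : ¬ p ∣ ε i0) :
    (Fintype.card F - 1) ^ n ≤ 2 * (GG F p ε).card := by
  classical
  obtain ⟨g, hg, hgp⟩ := gen_ex F
  have hgp' := hgp p hp hpF
  set U : Finset (Fin n → F) := Fintype.piFinset fun _ => Finset.univ.erase (0 : F) with hU
  have hUc : U.card = (Fintype.card F - 1) ^ n := by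
    rw [hU, Fintype.card_piFinset]
    simp [Finset.card_erase_of_mem]
  set ψ : (Fin n → F) → (Fin n → F) := fun δ => Function.update δ i0 (g⁻¹ * δ i0) with hψ
  have hsub : U ⊆ GG F p ε ∪ (GG F p ε).image ψ := by
    intro δ hδ
    have hδ0 : ∀ i, δ i ≠ 0 := by
      intro i
      have := (Fintype.mem_piFinset.1 hδ) i
      simpa using this
    rw [Finset.mem_union, Finset.mem_image]
    by_cases h : δ ∈ GG F p ε
    · exact Or.inl h
    · right
      rw [mem_GG, not_and] at h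
      have h' := h hδ0
      push Not at h'
      obtain ⟨y, hy⟩ := h'
      refine ⟨Function.update δ i0 (g * δ i0), mem_GG.2 ⟨?_, ?_⟩, ?_⟩
      · intro i
        by_cases hi : i = i0
        · subst hi
          rw [Function.update_self]
          exact mul_ne_zero hg (hδ0 _)
        · rw [Function.update_of_ne hi]
          exact hδ0 i
      · intro z hz
        have e : ∏ i, (Function.update δ i0 (g * δ i0)) i ^ ε i = g ^ ε i0 * ∏ i, δ i ^ ε i := by
          rw [← Finset.mul_prod_erase Finset.univ _ (Finset.mem_univ i0),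
            ← Finset.mul_prod_erase Finset.univ (fun i => δ i ^ ε i) (Finset.mem_univ i0),
            Function.update_self, mul_pow, mul_assoc]
          congr 2
          refine Finset.prod_congr rfl fun i hi => ?_
          rw [Function.update_of_ne (Finset.ne_of_mem_erase hi)]
        rw [e, ← hy] at hz
        have hy0 : y ≠ 0 := by
          rintro rfl
          rw [zero_pow hp.ne_zero] at hy
          exact (Finset.prod_ne_zero_iff.2 fun i _ => pow_ne_zero _ (hδ0 i)) hy.symm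
        obtain ⟨t, ht⟩ := root_of (z := z / y) hp hi0 hg (by
          rw [div_pow, hz, mul_div_assoc, div_self (pow_ne_zero _ hy0), mul_one])
        exact hgp' t ht
      · simp only [hψ, Function.update_self, Function.update_idem]
        rw [← mul_assoc, inv_mul_cancel₀ hg, one_mul, Function.update_eq_self]
  rw [← hUc]
  calc U.card ≤ (GG F p ε ∪ (GG F p ε).image ψ).card := Finset.card_le_card hsub
    _ ≤ (GG F p ε).card + ((GG F p ε).image ψ).card := Finset.card_union_le _ _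
    _ ≤ (GG F p ε).card + (GG F p ε).card := Nat.add_le_add_left Finset.card_image_le _
    _ = 2 * (GG F p ε).card := by ring

/-- the polynomial -/
noncomputable def hh {n D r : ℕ} (q : ℕ)
    (x : (Fin n → F) × (Fin D → F) × (Fin (r + 1) → F)) : F[X] :=
  (∏ i, (X - C (x.1 i))) * mF x.2.1 + bF x.2.2 ^ q

theorem hh_deg {n D r q : ℕ} (hqr : q * r < n + D)
    (x : (Fin n → F) × (Fin D → F) × (Fin (r + 1) → F)) : (hh q x).natDegree ≤ n + D := by
  unfold hh
  refine (natDegree_add_le _ _).trans (max_le ?_ ?_)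
  · refine natDegree_mul_le.trans ?_
    rw [mF_natDegree]
    have h1 : (∏ i, (X - C (x.1 i))).natDegree ≤ ∑ i : Fin n, (X - C (x.1 i)).natDegree :=
      natDegree_prod_le _ _
    have h2 : ∑ i : Fin n, (X - C (x.1 i)).natDegree = n := by
      simp
    omega
  · refine natDegree_pow_le.trans ?_
    have h1 : (bF x.2.2).natDegree ≤ r := by
      have := bF_deg x.2.2
      by_cases h0 : bF x.2.2 = 0
      · rw [h0]; simp
      · rw [degree_eq_natDegree h0] at this
        have := Nat.cast_lt.1 this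
        omega
    have := Nat.mul_le_mul_left q h1
    omega

/-- surjectivity of the parametrization -/
theorem param {n D r p q : ℕ} (ε : Fin n → ℕ) (θ : F) (δ : Fin n → F) (hδ : δ ∈ GG F p ε)
    (β : F) (w : Fin r → F) (τ : F) (a : Fin D → F) :
    ∃ x : (Fin n → F) × (Fin (D + 2) → F) × (Fin (r + 1) → F),
      (hh q x).eval θ = 0 ∧ (derivative (hh q x)).eval θ = τ ∧ (bF x.2.2).eval θ = β ∧
      (fun i => θ - x.1 i) = δ ∧ Fin.tail x.2.2 = w ∧ Fin.tail (Fin.tail x.2.1) = a := by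
  obtain ⟨hδ0, _⟩ := mem_GG.1 hδ
  obtain ⟨ρ, hρ⟩ : ∃ ρ : Fin n → F, ρ = fun i => θ - δ i := ⟨_, rfl⟩
  obtain ⟨A, hA⟩ : ∃ A : F[X], A = ∏ i, (X - C (ρ i)) := ⟨_, rfl⟩
  obtain ⟨b, hb⟩ : ∃ b : Fin (r + 1) → F, b = Fin.cons (β - θ * (bF w).eval θ) w := ⟨_, rfl⟩
  have hAθ : A.eval θ = ∏ i, δ i := by
    rw [hA, eval_prod]
    refine Finset.prod_congr rfl fun i _ => ?_
    rw [eval_sub, eval_X, eval_C, hρ]
    ring
  have hA0 : A.eval θ ≠ 0 := by
    rw [hAθ]
    exact Finset.prod_ne_zero_iff.2 fun i _ => hδ0 i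
  have hbθ : (bF b).eval θ = β := by
    rw [hb, bF_cons, eval_add, eval_mul, eval_X, eval_C]
    ring
  obtain ⟨B, hB⟩ : ∃ B : F[X], B = X ^ (D + 2) + X * (X * bF a) := ⟨_, rfl⟩
  obtain ⟨k0, hk0⟩ : ∃ k : F, k = -β ^ q / A.eval θ := ⟨_, rfl⟩
  obtain ⟨k1, hk1⟩ : ∃ k : F, k = (τ - (derivative A).eval θ * k0 -
    (derivative (bF b ^ q)).eval θ) / A.eval θ := ⟨_, rfl⟩
  obtain ⟨a1, ha1⟩ : ∃ k : F, k = k1 - (derivative B).eval θ := ⟨_, rfl⟩
  obtain ⟨a0, ha0⟩ : ∃ k : F, k = k0 - B.eval θ - θ * a1 := ⟨_, rfl⟩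
  obtain ⟨u, hu⟩ : ∃ u : Fin (D + 2) → F, u = Fin.cons a0 (Fin.cons a1 a : Fin (D + 1) → F) :=
    ⟨_, rfl⟩
  have hue : (mF u).eval θ = k0 := by
    rw [hu, mF_cons, ← hB]
    simp only [eval_add, eval_mul, eval_X, eval_C]
    rw [ha0]
    ring
  have hud : (derivative (mF u)).eval θ = k1 := by
    rw [hu, mF_cons, ← hB]
    simp only [derivative_add, derivative_C, derivative_mul, derivative_X, eval_add, eval_mul,
      eval_X, eval_C, eval_zero, eval_one]
    rw [ha1]
    ring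
  refine ⟨(ρ, u, b), ?_, ?_, hbθ, ?_, ?_, ?_⟩
  · unfold hh
    simp only
    rw [← hA, eval_add, eval_mul, eval_pow, hue, hbθ, hk0]
    field_simp
    ring
  · unfold hh
    simp only
    rw [← hA, derivative_add, derivative_mul, eval_add, eval_add, eval_mul, eval_mul, hue, hud,
      hk1]
    field_simp
    ring
  · funext i
    rw [hρ]
    ring
  · simp only [hb, Fin.tail_cons]
  · simp only [hu, Fin.tail_cons]

end

theorem t_S : St_S := by
  classical
  intro n D r p q hp hq hD hqr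
  obtain ⟨D, rfl⟩ : ∃ D', D = D' + 2 := ⟨D - 2, by omega⟩
  refine ⟨2 ^ (n + 3) * (n + (D + 2)), 0, ?_⟩
  intro F _ _ hpF _ ε ⟨i0, hi0⟩
  obtain ⟨P, hP⟩ : ∃ P, P = Fintype.card F := ⟨_, rfl⟩
  have hP2 : 2 ≤ P := by
    rw [hP]
    exact Fintype.one_lt_card
  let Xt := (Fin n → F) × (Fin (D + 2) → F) × (Fin (r + 1) → F)
  let Q : F → Xt → Prop := fun θ x => (hh q x).eval θ = 0 ∧ (derivative (hh q x)).eval θ ≠ 0 ∧
    (bF x.2.2).eval θ ≠ 0 ∧ ∀ y : F, y ^ p ≠ ∏ i, (θ - x.1 i) ^ ε i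
  let S : Finset Xt := Finset.univ.filter fun x => ∃ θ, Q θ x
  let W : Finset (F × Xt) := Finset.univ.filter fun z => Q z.1 z.2
  have hS : {x : (Fin n → F) × (Fin (D + 2) → F) × (Fin (r + 1) → F) | ∃ θ : F,
        ((∏ i, (X - C (x.1 i))) * mF x.2.1 + bF x.2.2 ^ q).eval θ = 0 ∧
        (derivative ((∏ i, (X - C (x.1 i))) * mF x.2.1 + bF x.2.2 ^ q)).eval θ ≠ 0 ∧
        (bF x.2.2).eval θ ≠ 0 ∧ ∀ y : F, y ^ p ≠ ∏ i, (θ - x.1 i) ^ ε i} = (S : Set Xt) := by
    ext x
    simp only [S, Finset.coe_filter, Finset.mem_univ, true_and]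
    rfl
  rw [hS, Set.ncard_coe_finset, ← hP]
  -- every element has few zeros
  have h1 : W.card ≤ (n + (D + 2)) * S.card := by
    refine Finset.card_le_mul_card_image_of_maps_to (f := fun z => z.2) ?_ _ ?_
    · intro z hz
      have hz' : Q z.1 z.2 := (Finset.mem_filter.1 hz).2
      exact Finset.mem_filter.2 ⟨Finset.mem_univ _, z.1, hz'⟩
    · intro x hx
      obtain ⟨θ, hθ⟩ := (Finset.mem_filter.1 hx).2
      have hne : hh q x ≠ 0 := by
        intro h0
        apply hθ.2.1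
        rw [h0]
        simp
      calc (W.filter fun z => z.2 = x).card ≤ (hh q x).roots.toFinset.card := by
            refine Finset.card_le_card_of_injOn (fun z => z.1) ?_ ?_
            · intro z hz
              obtain ⟨hz1, hz2⟩ := Finset.mem_filter.1 hz
              have hz' : Q z.1 z.2 := (Finset.mem_filter.1 hz1).2
              rw [hz2] at hz'
              rw [Finset.mem_coe, Multiset.mem_toFinset, mem_roots hne]
              exact hz'.1
            · intro z hz z' hz' h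
              have e1 := (Finset.mem_filter.1 hz).2
              have e2 := (Finset.mem_filter.1 hz').2
              exact Prod.ext h (e1.trans e2.symm)
        _ ≤ (hh q x).roots.card := Multiset.toFinset_card_le _
        _ ≤ (hh q x).natDegree := card_roots' _
        _ ≤ n + (D + 2) := hh_deg hqr x
  -- the parametrization
  have h2 : P * ((GG F p ε).card * ((P - 1) * (P ^ r * ((P - 1) * P ^ D)))) ≤ W.card := by
    let g : F × Xt → F × (Fin n → F) × F × (Fin r → F) × F × (Fin D → F) := fun z =>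
      (z.1, (fun i => z.1 - z.2.1 i), (bF z.2.2.2).eval z.1, Fin.tail z.2.2.2,
        (derivative (hh q z.2)).eval z.1, Fin.tail (Fin.tail z.2.2.1))
    let T : Finset (F × (Fin n → F) × F × (Fin r → F) × F × (Fin D → F)) :=
      Finset.univ ×ˢ (GG F p ε) ×ˢ (Finset.univ.erase 0) ×ˢ Finset.univ ×ˢ
        (Finset.univ.erase 0) ×ˢ Finset.univ
    have hT : T.card = P * ((GG F p ε).card * ((P - 1) * (P ^ r * ((P - 1) * P ^ D)))) := by
      simp only [T, Finset.card_product, Finset.card_erase_of_mem (Finset.mem_univ _),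
        Finset.card_univ, Fintype.card_fun, Fintype.card_fin, ← hP]
    rw [← hT]
    refine Finset.card_le_card_of_surjOn g ?_
    rintro ⟨θ, δ, β, w, τ, a⟩ hz
    simp only [T, Finset.coe_product, Set.mem_prod, Finset.mem_coe, Finset.mem_univ, true_and,
      Finset.mem_erase, and_true] at hz
    obtain ⟨hδ, hβ, hτ⟩ := hz
    obtain ⟨x, e1, e2, e3, e4, e5, e6⟩ := param (q := q) ε θ δ hδ β w τ a
    refine ⟨(θ, x), ?_, ?_⟩
    · rw [Finset.mem_coe]
      refine Finset.mem_filter.2 ⟨Finset.mem_univ _, e1, by rw [e2]; exact hτ, by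
        rw [e3]; exact hβ, ?_⟩
      have h := (mem_GG.1 hδ).2
      rw [← e4] at h
      exact h
    · simp only [g]
      rw [e2, e3, e4, e5, e6]
  have h3 := card_GG (F := F) hp hpF ε i0 hi0
  rw [← hP] at h3
  -- conclusion
  have h4 : P ≤ 2 * (P - 1) := by omega
  have h5 : P ^ n ≤ 2 ^ (n + 1) * (GG F p ε).card := by
    calc P ^ n ≤ (2 * (P - 1)) ^ n := Nat.pow_le_pow_left h4 n
      _ = 2 ^ n * (P - 1) ^ n := mul_pow _ _ _
      _ ≤ 2 ^ n * (2 * (GG F p ε).card) := Nat.mul_le_mul_left _ h3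
      _ = _ := by ring
  calc P ^ (n + (D + 2) + (r + 1)) = P * (P ^ n * (P * (P ^ r * (P * P ^ D)))) := by ring
    _ ≤ P * ((2 ^ (n + 1) * (GG F p ε).card) * ((2 * (P - 1)) * (P ^ r *
        ((2 * (P - 1)) * P ^ D)))) := by gcongr
    _ = 2 ^ (n + 3) * (P * ((GG F p ε).card * ((P - 1) * (P ^ r * ((P - 1) * P ^ D))))) := by
        ring
    _ ≤ 2 ^ (n + 3) * ((n + (D + 2)) * S.card) :=
        Nat.mul_le_mul_left _ (h2.trans h1)
    _ = _ := by ring

end Pool.Agent.Y737.EN
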